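import Pool.Agent.GW.Final
import Pool.Agent.GW.Full

/-!
# Guenin-Williams: k-dijoins in digraphs with a super-source and a super-sink
-/

namespace Pool.Agent.Results.MP_27938c_co.GueninWilliams

open Relation

/-- there is an arc from `x` to `y` -/
def Arc {V A : Type} (src tgt : A → V) (x y : V) : Prop := ∃ a, src a = x ∧ tgt a = y

/-- `y` can be reached from `x` by a directed path -/
def Reach {V A : Type} (src tgt : A → V) (x y : V) : Prop := ReflTransGen (Arc src tgt) x y

/-- there is no directed cycle -/
def Acyclic {V A : Type} (src tgt : A → V) : Prop := ∀ v, ¬ TransGen (Arc src tgt) v v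

/-- no arc enters `s` -/
def IsSource {V A : Type} (tgt : A → V) (s : V) : Prop := ∀ a, tgt a ≠ s

/-- no arc leaves `t` -/
def IsSink {V A : Type} (src : A → V) (t : V) : Prop := ∀ a, src a ≠ t

/-- a source from which every sink can be reached -/
def SuperSource {V A : Type} (src tgt : A → V) (s : V) : Prop :=
  IsSource tgt s ∧ ∀ w, IsSink src w → Reach src tgt s w

/-- a sink which can be reached from every source -/
def SuperSink {V A : Type} (src tgt : A → V) (t : V) : Prop :=
  IsSink src t ∧ ∀ v, IsSource tgt v → Reach src tgt v t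

/-- the dicut given by `U`: the arcs leaving `U` -/
def cut {V A : Type} (src tgt : A → V) (U : Set V) : Set A := {a | src a ∈ U ∧ tgt a ∉ U}

/-- `U` is nonempty, proper, and no arc enters it -/
def Shore {V A : Type} (src tgt : A → V) (U : Set V) : Prop :=
  U.Nonempty ∧ U ≠ Set.univ ∧ ∀ a, ¬ (src a ∉ U ∧ tgt a ∈ U)

/-- `F` has at least `k` arcs in every dicut -/
def KDijoin {V A : Type} (src tgt : A → V) (k : ℕ) (F : Set A) : Prop :=
  ∀ U : Set V, Shore src tgt U → k ≤ (F ∩ cut src tgt U).ncard

/-- `F` is the disjoint union of `k` dijoins -/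
def Splits {V A : Type} (src tgt : A → V) (k : ℕ) (F : Set A) : Prop :=
  ∃ P : Fin k → Set A, (⋃ j, P j) = F ∧ (∀ i j, i ≠ j → Disjoint (P i) (P j)) ∧
    ∀ j, KDijoin src tgt 1 (P j)

/-- The Guenin-Williams conjecture.  First part: acyclic digraphs with a super-source and a
super-sink.  Second part: the same for digraphs which may have directed cycles: it suffices that
`s` has a common successor with every vertex (every sink component can be reached from `s`) and
`t` has a common predecessor with every vertex. -/
theorem result :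
    (∀ (V A : Type) [Finite V] [Finite A] (src tgt : A → V), Acyclic src tgt →
      ∀ s t : V, SuperSource src tgt s → SuperSink src tgt t →
      ∀ k : ℕ, 1 ≤ k → ∀ F : Set A, KDijoin src tgt k F → Splits src tgt k F) ∧
    (∀ (V A : Type) [Finite V] [Finite A] (src tgt : A → V) (s t : V),
      (∀ v, ∃ w, Reach src tgt v w ∧ Reach src tgt s w) →
      (∀ v, ∃ w, Reach src tgt w v ∧ Reach src tgt w t) →
      ∀ k : ℕ, 1 ≤ k → ∀ F : Set A, KDijoin src tgt k F → Splits src tgt k F) := by
  have hk : ∀ {V A : Type} (src tgt : A → V) (k : ℕ) (F : Set A),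
      KDijoin src tgt k F ↔ GW.KDijoin src tgt F k := by
    intro V A src tgt k F
    constructor
    · intro h U hU
      exact h U ⟨hU.1, hU.2.1, fun a ha => ha.1 (hU.2.2 a ha.2)⟩
    · intro h U hU
      refine h U ⟨hU.1, hU.2.1, fun a ha => ?_⟩
      by_contra hcon
      exact hU.2.2 a ⟨hcon, ha⟩
  have main : ∀ (V A : Type) [Finite V] [Finite A] (src tgt : A → V) (s t : V),
      (∀ v, ∃ w, Reach src tgt v w ∧ Reach src tgt s w) →
      (∀ v, ∃ w, Reach src tgt w v ∧ Reach src tgt w t) →
      ∀ k : ℕ, 1 ≤ k → ∀ F : Set A, KDijoin src tgt k F → Splits src tgt k F := by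
    intro V A _ _ src tgt s t hs ht k hk1 F hF
    obtain ⟨c, hc⟩ := GW.general_of_stmtG
      (fun k hk => GW.stmtG_all (GW.stmtG_two GW.Step2_proof) hk)
      V A src tgt s t hs ht k hk1 F ((hk src tgt k F).1 hF)
    obtain ⟨h1, h2⟩ := GW.partition_of_colouring F c
    exact ⟨fun j => F ∩ {a | c a = j}, h1, h2, fun j => (hk src tgt 1 _).2 (hc j)⟩
  refine ⟨?_, main⟩
  intro V A _ _ src tgt hac s t hs ht k hk1 F hF
  exact main V A src tgt s t (GW.common_succ src tgt hac s hs.2)
    (GW.common_pred src tgt hac t ht.2) k hk1 F hF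

end Pool.Agent.Results.MP_27938c_co.GueninWilliams
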